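import Pool.Agent.Helper97.FS.Stmts

set_option autoImplicit false
set_option linter.style.haveILetI false

namespace Pool.Agent.Helper97.FS

open Finset
open Pool.Agent.Helper97.Sub

noncomputable def spl_len {d : ℕ} (L : Fin d → ℝ) : (Fin d → ℤ) →ₗ[ℤ] ℝ where
  toFun := len L
  map_add' x y := by
    simp only [len, Pi.add_apply, Int.cast_add, mul_add, Finset.sum_add_distrib]
  map_smul' k x := by
    simp only [len, Pi.smul_apply, smul_eq_mul, Int.cast_mul, RingHom.id_apply, zsmul_eq_mul,
      Finset.mul_sum]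
    refine Finset.sum_congr rfl fun a _ => ?_
    ring

theorem spl_section {d : ℕ} (L : Fin d → ℝ) :
    ∃ g : LinearMap.range (spl_len L) →ₗ[ℤ] (Fin d → ℤ),
      ∀ y, spl_len L (g y) = y.1 := by
  have : Module.Finite ℤ (LinearMap.range (spl_len L)) := inferInstance
  have : Module.Free ℤ (LinearMap.range (spl_len L)) := inferInstance
  obtain ⟨h, hh⟩ := Module.projective_lifting_property (spl_len L).rangeRestrict
    (LinearMap.id : LinearMap.range (spl_len L) →ₗ[ℤ] LinearMap.range (spl_len L))
    (spl_len L).surjective_rangeRestrict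
  refine ⟨h, fun y => ?_⟩
  have := LinearMap.congr_fun hh y
  have h2 := congrArg Subtype.val this
  simpa using h2

theorem st_SPL : ST_SPL := by
  intro d L U hU hsat
  obtain ⟨g, hg⟩ := spl_section L
  have : Module.Finite ℤ (LinearMap.range (spl_len L)) := inferInstance
  have : Module.Free ℤ (LinearMap.range (spl_len L)) := inferInstance
  let R := LinearMap.range (spl_len L)
  let b := Module.finBasis ℤ R
  let qL : (Fin d → ℤ) →ₗ[ℤ] (Fin (Module.finrank ℤ R) → ℤ) :=
    b.equivFun.toLinearMap ∘ₗ (spl_len L).rangeRestrict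
  let vL : (Fin (Module.finrank ℤ R) → ℤ) →ₗ[ℤ] ℝ := R.subtype ∘ₗ b.equivFun.symm.toLinearMap
  -- kernel part
  let N := LinearMap.ker (spl_len L)
  let U' : Submodule ℤ N := (AddSubgroup.toIntSubmodule U).comap N.subtype
  have : Module.Finite ℤ N := inferInstance
  have : Module.Finite ℤ (N ⧸ U') := inferInstance
  have hmemU' : ∀ x : N, x ∈ U' ↔ (x : Fin d → ℤ) ∈ U := fun x => Iff.rfl
  have htf : Module.IsTorsionFree ℤ (N ⧸ U') := by
    refine Module.IsTorsionFree.of_smul_eq_zero fun k x hkx => ?_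
    by_cases hk : k = 0
    · exact Or.inl hk
    · right
      obtain ⟨y, rfl⟩ := U'.mkQ_surjective x
      rw [← map_smul, Submodule.mkQ_apply, Submodule.Quotient.mk_eq_zero, hmemU'] at hkx
      rw [Submodule.mkQ_apply, Submodule.Quotient.mk_eq_zero, hmemU']
      exact hsat k _ hk (by simpa using hkx)
  have : Module.Free ℤ (N ⧸ U') := inferInstance
  let c := Module.finBasis ℤ (N ⧸ U')
  let pi0 : (Fin d → ℤ) →ₗ[ℤ] N :=
    LinearMap.codRestrict N (LinearMap.id - g ∘ₗ (spl_len L).rangeRestrict) (by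
      intro x
      simp only [N, LinearMap.mem_ker, LinearMap.sub_apply, LinearMap.id_apply, map_sub,
        LinearMap.comp_apply, hg]
      simp)
  let pL : (Fin d → ℤ) →ₗ[ℤ] (Fin (Module.finrank ℤ (N ⧸ U')) → ℤ) :=
    c.equivFun.toLinearMap ∘ₗ U'.mkQ ∘ₗ pi0
  have hpi0 : ∀ x : Fin d → ℤ, (pi0 x : Fin d → ℤ) = x - g ((spl_len L).rangeRestrict x) :=
    fun x => rfl
  have hker0 : ∀ x : Fin d → ℤ, spl_len L x = 0 → (spl_len L).rangeRestrict x = 0 := by
    intro x hx
    apply Subtype.ext
    simpa using hx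
  have hpiN : ∀ x : Fin d → ℤ, spl_len L x = 0 → (pi0 x : Fin d → ℤ) = x := by
    intro x hx
    rw [hpi0, hker0 x hx, map_zero, sub_zero]
  have hq0 : ∀ x : Fin d → ℤ, qL x = 0 ↔ spl_len L x = 0 := by
    intro x
    constructor
    · intro h
      have h1 : (spl_len L).rangeRestrict x = 0 := by
        have : b.equivFun ((spl_len L).rangeRestrict x) = 0 := h
        exact (LinearEquiv.map_eq_zero_iff _).1 this
      have := congrArg Subtype.val h1
      simpa using this
    · intro h
      change b.equivFun ((spl_len L).rangeRestrict x) = 0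
      rw [hker0 x h, map_zero]
  have hp0 : ∀ x : Fin d → ℤ, pL x = 0 ↔ (pi0 x : Fin d → ℤ) ∈ U := by
    intro x
    rw [← hmemU', ← Submodule.Quotient.mk_eq_zero, ← Submodule.mkQ_apply]
    change c.equivFun (U'.mkQ (pi0 x)) = 0 ↔ _
    exact LinearEquiv.map_eq_zero_iff _
  refine ⟨_, _, pL.toAddMonoidHom, qL.toAddMonoidHom, vL.toAddMonoidHom, ?_, ?_, ?_, ?_⟩
  · change Function.Injective (fun x => ((b.equivFun.symm x : R) : ℝ))
    exact Subtype.val_injective.comp b.equivFun.symm.injective
  · intro j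
    change ((b.equivFun.symm (b.equivFun ((spl_len L).rangeRestrict j)) : R) : ℝ) = len L j
    rw [LinearEquiv.symm_apply_apply]
    rfl
  · intro j
    change j ∈ U ↔ pL j = 0 ∧ qL j = 0
    rw [hp0, hq0]
    constructor
    · intro hj
      have h0 : spl_len L j = 0 := hU j hj
      exact ⟨by rw [hpiN j h0]; exact hj, h0⟩
    · rintro ⟨h1, h2⟩
      rwa [hpiN j h2] at h1
  · intro x y
    obtain ⟨n0, hn0⟩ := U'.mkQ_surjective (c.equivFun.symm x)
    obtain ⟨j2, hj2⟩ := (spl_len L).surjective_rangeRestrict (b.equivFun.symm y)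
    refine ⟨n0 + g ((spl_len L).rangeRestrict j2), ?_, ?_⟩
    · change c.equivFun (U'.mkQ (pi0 _)) = x
      have h1 : pi0 ((n0 : Fin d → ℤ) + g ((spl_len L).rangeRestrict j2)) = n0 := by
        apply Subtype.ext
        rw [map_add, Submodule.coe_add, hpiN n0 n0.2, hpi0 (g _)]
        have h2 : (spl_len L).rangeRestrict (g ((spl_len L).rangeRestrict j2)) =
            (spl_len L).rangeRestrict j2 := by
          apply Subtype.ext
          change spl_len L (g _) = _
          rw [hg]
        rw [h2, sub_self, add_zero]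
      rw [h1, hn0, LinearEquiv.apply_symm_apply]
    · change b.equivFun ((spl_len L).rangeRestrict _) = y
      have h2 : (spl_len L).rangeRestrict ((n0 : Fin d → ℤ) +
          g ((spl_len L).rangeRestrict j2)) = (spl_len L).rangeRestrict j2 := by
        apply Subtype.ext
        rw [map_add, Submodule.coe_add, hker0 n0 n0.2]
        change (0 : ℝ) + spl_len L (g _) = _
        rw [hg, zero_add]
      rw [h2, hj2, LinearEquiv.apply_symm_apply]

end Pool.Agent.Helper97.FS
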